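import Mathlib
import Pool.Agent.Helper56.RZ.GoalsF
import Pool.Agent.Helper56.RZ.Fin0
import Pool.Agent.Helper56.RZ.FinG
import Pool.Agent.Helper64.RZ.A1
import Pool.Agent.Helper62.RZ.RET

/-! # Packet RZ5-DR5: domination at the returns to a small ball around a good point -/

set_option autoImplicit false

open Set Filter Topology

namespace Pool.Agent.Helper58.RZ

open Pool.Agent.Helper56.RZ
open Pool.Agent.Helper64.RZ (An_add f_inv P_An spl_inv)

section pow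

variable {X : Type} [TopologicalSpace X] {K : ℕ} {C D : Coc X K} {m : ℕ}

theorem pow_f (h : IsPow C D m) (n : ℕ) (x : X) : D.f^[n] x = C.f^[n * m] x := by
  induction n with
  | zero => rw [zero_mul]; rfl
  | succ n ih =>
    rw [Function.iterate_succ_apply', ih, h.f, ← Function.iterate_add_apply, Nat.succ_mul,
      Nat.add_comm]

theorem pow_An (h : IsPow C D m) (n : ℕ) (x : X) : D.An n x = C.An (n * m) x := by
  induction n with
  | zero => rw [zero_mul]; exact h.T x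
  | succ n ih =>
    change D.A (D.f^[n] x) * D.An n x = _
    rw [ih, h.A, pow_f h, Nat.succ_mul, Nat.add_comm, An_add]

theorem pow_inv (h : IsPow C D m) : IsPow C.inv D.inv m := ⟨h.T, h.f', h.f, h.B, h.A⟩

theorem two {P : Fin 3 → X → End K} (h : Spl C P) (i : Fin 3) (p q : ℕ) (x : X) :
    ‖C.An (q + p) x * P i x‖ ≤
      ‖C.An q (C.f^[p] x) * P i (C.f^[p] x)‖ * ‖C.An p x * P i x‖ := by
  have e1 : C.An (q + p) x * P i x =
      (C.An q (C.f^[p] x) * P i (C.f^[p] x)) * (C.An p x * P i x) := by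
    have e2 : C.An p x * P i x = P i (C.f^[p] x) * (C.An p x * P i x) := by
      rw [← mul_assoc, ← P_An h, mul_assoc, h.proj, if_pos rfl]
    conv_lhs => rw [An_add, mul_assoc, e2]
    simp only [mul_assoc]
  rw [e1]
  exact norm_mul_le _ _

theorem three {P : Fin 3 → X → End K} (h : Spl C P) (i : Fin 3) (p q r : ℕ) (x : X) :
    ‖C.An (r + (q + p)) x * P i x‖ ≤
      ‖C.An r (C.f^[q + p] x) * P i (C.f^[q + p] x)‖ *
        (‖C.An q (C.f^[p] x) * P i (C.f^[p] x)‖ * ‖C.An p x * P i x‖) :=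
  (two h i (q + p) r x).trans (mul_le_mul_of_nonneg_left (two h i p q x) (norm_nonneg _))

end pow

theorem rep_iter' {K : ℕ} {M : Set (E K)} {C : Coc M K} {f f' : E K → E K} (h : Rep C f f')
    (j : ℕ) (x : M) : ((C.inv.f^[j] x : M) : E K) = f'^[j] x := by
  induction j with
  | zero => rfl
  | succ j ih =>
    rw [Function.iterate_succ_apply', Function.iterate_succ_apply', ← ih]
    exact h.rf' _

theorem prod_bound {A I a1 a2 ma i1 i2 mi CE CF Cl u v : ℝ} (hA : A ≤ a2 * (ma * a1))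
    (hI : I ≤ i1 * (mi * i2)) (hI0 : 0 ≤ I) (ha1 : 0 ≤ a1) (ha2 : 0 ≤ a2) (hma : 0 ≤ ma)
    (hi1 : 0 ≤ i1) (hi2 : 0 ≤ i2) (_ : 0 ≤ mi) (h1 : a1 ≤ CE * u) (h2 : a2 ≤ CF * u)
    (h3 : i1 ≤ CE * v) (h4 : i2 ≤ CF * v) (hm : ma * mi ≤ Cl) (hCE : 0 ≤ CE) (hCF : 0 ≤ CF)
    (hu : 0 ≤ u) (hv : 0 ≤ v) (hCl : 0 ≤ Cl) :
    A * I ≤ CE ^ 2 * CF ^ 2 * Cl * (u * u * (v * v)) := by
  have e1 : A * I ≤ (a2 * (ma * a1)) * (i1 * (mi * i2)) :=
    mul_le_mul hA hI hI0 (by positivity)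
  have e2 : (a2 * (ma * a1)) * (i1 * (mi * i2)) = (ma * mi) * ((a1 * a2) * (i1 * i2)) := by ring
  have e3 : a1 * a2 ≤ (CE * u) * (CF * u) := mul_le_mul h1 h2 ha2 (by positivity)
  have e4 : i1 * i2 ≤ (CE * v) * (CF * v) := mul_le_mul h3 h4 hi2 (by positivity)
  have e5 : (a1 * a2) * (i1 * i2) ≤ ((CE * u) * (CF * u)) * ((CE * v) * (CF * v)) :=
    mul_le_mul e3 e4 (by positivity) (by positivity)
  have e6 : (ma * mi) * ((a1 * a2) * (i1 * i2)) ≤
      Cl * (((CE * u) * (CF * u)) * ((CE * v) * (CF * v))) :=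
    mul_le_mul hm e5 (by positivity) hCl
  calc A * I ≤ _ := e1
    _ = _ := e2
    _ ≤ _ := e6
    _ = _ := by ring

theorem dr5 : StmtEN5 → StmtDN5 → StmtPW → StmtDR5 := by
  intro hEN hDN _ K M hM C D P n k f f' a b c C0 Λ ε C' ν CB x0 hs hdom hLC hLD hrep hk gp hε
    hnr hν hν1 hCB
  have hcM : CompactSpace M := isCompact_iff_compactSpace.1 hM
  obtain ⟨l, Cl, hl0, hl1, hCl, hdn⟩ := hDN M K C P n hs hdom
  obtain ⟨m0, hm⟩ : ∃ m0, m0 = k * n := ⟨_, rfl⟩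
  have hm0 : 1 ≤ m0 := by rw [hm]; exact Nat.mul_pos hk hdom.1
  have hpow : IsPow C D m0 := by rw [hm]; exact gp.pow
  obtain ⟨CE, R1, hCE, hR1, hR11, hEN1⟩ := hEN K M hM D P a b c C0 Λ ε C' ν CB gp.spl hLD
    gp.rates gp.hC0 gp.hΛ gp.ha hε gp.big hν hν1 hCB
  obtain ⟨CF, R2, hCF, hR2, hR21, hEN2⟩ := hEN K M hM D.inv (fun i => P (2 - i))
    (fun x => b (D.f.symm x)) (fun x => a (D.f.symm x)) (fun x => c (D.f.symm x)) C0 Λ ε C' ν CB
    gp.spl.inv' hLD.inv gp.rates.inv gp.hC0 gp.hΛ (fun x => gp.hb _) hε gp.big hν hν1 hCB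
  have E1 := hEN1 x0 gp.fwd
  have E2 := hEN2 x0 gp.bwd
  obtain ⟨L0, hL0, hlip⟩ := Pool.Agent.Helper62.RZ.inv_lip hM hLC.inv m0
  have hΛ := gp.hΛ
  obtain ⟨R3, hR3, hN⟩ := hnr (2 * m0 / Λ) (ν / 2) (by positivity)
  obtain ⟨R4, hR4, hR4'⟩ : ∃ R4 : ℝ, 0 < R4 ∧ ∀ R : ℝ, 0 < R → R ≤ R4 →
      (L0 + 1) * R ^ (ν / 2) ≤ 1 := by
    refine ⟨(1 / (L0 + 1)) ^ (2 / ν), by positivity, fun R hR hle => ?_⟩
    have h1 : R ^ (ν / 2) ≤ ((1 / (L0 + 1)) ^ (2 / ν)) ^ (ν / 2) :=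
      Real.rpow_le_rpow hR.le hle (by positivity)
    have h2 : ((1 / (L0 + 1)) ^ (2 / ν)) ^ (ν / 2) = 1 / (L0 + 1) := by
      rw [← Real.rpow_mul (by positivity)]
      have : 2 / ν * (ν / 2) = 1 := by field_simp
      rw [this, Real.rpow_one]
    rw [h2] at h1
    have h3 : (L0 + 1) * R ^ (ν / 2) ≤ (L0 + 1) * (1 / (L0 + 1)) :=
      mul_le_mul_of_nonneg_left h1 (by linarith)
    have h4 : (L0 + 1) * (1 / (L0 + 1)) = 1 := by field_simp
    linarith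
  refine ⟨CE ^ 2 * CF ^ 2 * Cl, min (min R1 R2) (min R3 R4), ?_, ?_, ?_, ?_⟩
  · have h1 : 1 ≤ CE ^ 2 := one_le_pow₀ hCE
    have h2 : 1 ≤ CF ^ 2 := one_le_pow₀ hCF
    exact one_le_mul_of_one_le_of_one_le (one_le_mul_of_one_le_of_one_le h1 h2) hCl
  · exact lt_min (lt_min hR1 hR2) (lt_min hR3 hR4)
  · exact (min_le_left _ _).trans ((min_le_left _ _).trans hR11)
  intro R hR hRle j x hj hx hy
  have r1 : R ≤ R1 := hRle.trans ((min_le_left _ _).trans (min_le_left _ _))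
  have r2 : R ≤ R2 := hRle.trans ((min_le_left _ _).trans (min_le_right _ _))
  have r3 : R ≤ R3 := hRle.trans ((min_le_right _ _).trans (min_le_left _ _))
  have r4 : R ≤ R4 := hRle.trans ((min_le_right _ _).trans (min_le_right _ _))
  obtain ⟨N1, hN1, F1⟩ := E1 R hR r1
  obtain ⟨N2, hN2, F2⟩ := E2 R hR r2
  obtain ⟨y, hy0⟩ : ∃ y, y = C.f^[j] x := ⟨_, rfl⟩
  rw [← hy0] at hy
  obtain ⟨f1, f2, f3, f4, f5⟩ := F1 x hx
  obtain ⟨g1, g2, g3, g4, g5⟩ := F2 y hy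
  have key : N1 * m0 + N2 * m0 ≤ j := by
    by_contra hlt
    rw [not_le] at hlt
    have hq : j / m0 < N1 + N2 := Nat.div_lt_of_lt_mul (by rw [Nat.mul_comm, Nat.add_mul]; exact hlt)
    obtain ⟨i, hi⟩ : ∃ i, i = j % m0 := ⟨_, rfl⟩
    obtain ⟨q, hq0⟩ : ∃ q, q = j / m0 := ⟨_, rfl⟩
    have hjq : j = q * m0 + i := by
      rw [hq0, hi, Nat.mul_comm]
      exact (Nat.div_add_mod j m0).symm
    have him : i < m0 := by rw [hi]; exact Nat.mod_lt _ hm0
    rw [← hq0] at hq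
    obtain ⟨s, s', hs1, hs2, hss⟩ : ∃ s s', s ≤ N1 ∧ s' ≤ N2 ∧ q = s' + s := by
      rcases le_total q N1 with h1 | h1
      · exact ⟨q, 0, h1, Nat.zero_le _, by omega⟩
      · exact ⟨N1, q - N1, le_rfl, by omega, by omega⟩
    have hj2 : j = s' * m0 + (i + s * m0) := by rw [hjq, hss]; ring
    have e1 : C.inv.f^[s' * m0] y = C.f^[i + s * m0] x := by
      rw [hy0, hj2, Function.iterate_add_apply, f_inv]
    have h1 : ‖(C.f^[i + s * m0] x : E K) - C.f^[i + s * m0] x0‖ ≤ L0 * R ^ ν := by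
      have h2 := hlip i him (C.f^[i + s * m0] x) (C.f^[i + s * m0] x0)
      have h3 := f1 s hs1
      rw [pow_f hpow, pow_f hpow] at h3
      have e3 : ∀ z : M, C.inv.f^[i] (C.f^[i + s * m0] z) = C.f^[s * m0] z := fun z => by
        rw [Function.iterate_add_apply, f_inv]
      rw [e3, e3] at h2
      exact h2.trans (mul_le_mul_of_nonneg_left h3 (by linarith))
    have h2 : ‖(C.inv.f^[s' * m0] y : E K) - C.inv.f^[s' * m0] x0‖ ≤ R ^ ν := by
      have h3 := g1 s' hs2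
      rw [pow_f (pow_inv hpow), pow_f (pow_inv hpow)] at h3
      exact h3
    have h3 : ‖f^[j - s' * m0] (x0 : E K) - f'^[s' * m0] (x0 : E K)‖ ≤ (L0 + 1) * R ^ ν := by
      have e2 : j - s' * m0 = i + s * m0 := by omega
      rw [e2, ← hrep.iter, ← rep_iter' hrep]
      rw [e1] at h2
      have h4 : ‖(C.f^[i + s * m0] x0 : E K) - C.inv.f^[s' * m0] x0‖ ≤
          ‖(C.f^[i + s * m0] x : E K) - C.f^[i + s * m0] x0‖ +
          ‖(C.f^[i + s * m0] x : E K) - C.inv.f^[s' * m0] x0‖ := by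
        have := norm_sub_le ((C.f^[i + s * m0] x : E K) - C.inv.f^[s' * m0] x0)
          ((C.f^[i + s * m0] x : E K) - C.f^[i + s * m0] x0)
        rw [sub_sub_sub_cancel_left] at this
        linarith
      linarith
    have h4 : (j : ℝ) ≤ 2 * m0 / Λ * Real.log (1 / R) := by
      have h5 : (N1 : ℝ) * Λ ≤ Real.log (1 / R) := by
        rw [one_div, Real.le_log_iff_exp_le (by positivity)]
        exact hN1
      have h6 : (N2 : ℝ) * Λ ≤ Real.log (1 / R) := by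
        rw [one_div, Real.le_log_iff_exp_le (by positivity)]
        exact hN2
      have h7 : (j : ℝ) ≤ (N1 + N2) * m0 := by
        have : j ≤ (N1 + N2) * m0 := by rw [Nat.add_mul]; exact hlt.le
        exact_mod_cast this
      have h8 : ((N1 : ℝ) + N2) * Λ ≤ 2 * Real.log (1 / R) := by linarith
      have h9 : ((N1 : ℝ) + N2) ≤ 2 * Real.log (1 / R) / Λ := by
        rw [le_div_iff₀ hΛ]
        exact h8
      have h10 := mul_le_mul_of_nonneg_right h9 (Nat.cast_nonneg m0 : (0 : ℝ) ≤ m0)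
      have h11 : 2 * Real.log (1 / R) / Λ * m0 = 2 * m0 / Λ * Real.log (1 / R) := by ring
      linarith
    have h5 := hN R hR r3 j (s' * m0) hj h4 (by omega)
    have h6 : R ^ ν = R ^ (ν / 2) * R ^ (ν / 2) := by
      rw [← Real.rpow_add hR]
      congr 1
      ring
    have h7 := hR4' R hR r4
    have h8 : (L0 + 1) * R ^ ν ≤ R ^ (ν / 2) := by
      have h9 : 0 < R ^ (ν / 2) := Real.rpow_pos_of_pos hR _
      rw [h6, ← mul_assoc]
      nlinarith
    linarith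
  obtain ⟨k', hk'⟩ : ∃ k', j = N2 * m0 + (k' + N1 * m0) := ⟨j - (N1 * m0 + N2 * m0), by omega⟩
  obtain ⟨z1, hz1⟩ : ∃ z1, z1 = C.f^[N1 * m0] x := ⟨_, rfl⟩
  obtain ⟨z2, hz2⟩ : ∃ z2, z2 = C.f^[k' + N1 * m0] x := ⟨_, rfl⟩
  have hz2' : z2 = C.f^[k'] z1 := by rw [hz2, hz1, Function.iterate_add_apply]
  have hyz : y = C.f^[N2 * m0] z2 := by rw [hy0, hk', hz2, Function.iterate_add_apply]
  have hiz : C.inv.f^[N2 * m0] y = z2 := by rw [hyz, f_inv]
  have hiz' : C.inv.f^[k' + N2 * m0] y = z1 := by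
    rw [Function.iterate_add_apply, hiz, hz2', f_inv]
  have hj3 : j = N1 * m0 + (k' + N2 * m0) := by omega
  have A3 : ∀ i, ‖C.An j x * P i x‖ ≤ ‖C.An (N2 * m0) z2 * P i z2‖ *
      (‖C.An k' z1 * P i z1‖ * ‖C.An (N1 * m0) x * P i x‖) := by
    intro i
    rw [hk', hz1, hz2]
    exact three hs i _ _ _ x
  have I3 : ∀ i, ‖C.inv.An j y * P i y‖ ≤ ‖C.inv.An (N1 * m0) z1 * P i z1‖ *
      (‖C.inv.An k' z2 * P i z2‖ * ‖C.inv.An (N2 * m0) y * P i y‖) := by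
    intro i
    have := three (spl_inv hs) i (N2 * m0) k' (N1 * m0) y
    rw [hiz, hiz', ← hj3] at this
    exact this
  have hd := hdn k' z1
  have hlk : Cl * l ^ k' ≤ Cl := by
    have : l ^ k' ≤ 1 := pow_le_one₀ hl0.le hl1.le
    nlinarith
  unfold DP at hd
  rw [← hz2'] at hd
  have hd1 := ((le_max_left _ _).trans hd).trans hlk
  have hd2 := ((le_max_right _ _).trans hd).trans hlk
  rw [pow_f hpow, pow_An (pow_inv hpow), ← hz1] at f3 f5
  rw [pow_An hpow] at f2 f4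
  rw [pow_f (pow_inv hpow), pow_An (pow_inv (pow_inv hpow)), hiz] at g3 g5
  rw [pow_An (pow_inv hpow)] at g2 g4
  have hu : 0 ≤ R ^ (1 - ν - 4 * ε) := (Real.rpow_pos_of_pos hR _).le
  have hv : 0 ≤ R ^ (-(2 * ε)) := (Real.rpow_pos_of_pos hR _).le
  have hRR : R ^ (1 - ν - 4 * ε) * R ^ (1 - ν - 4 * ε) * (R ^ (-(2 * ε)) * R ^ (-(2 * ε))) =
      R ^ (2 - 2 * ν - 12 * ε) := by
    rw [← Real.rpow_add hR, ← Real.rpow_add hR, ← Real.rpow_add hR]
    congr 1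
    ring
  rw [← hRR]
  unfold DP
  rw [← hy0]
  refine max_le ?_ ?_
  · exact prod_bound (A3 0) (I3 1) (norm_nonneg _) (norm_nonneg _) (norm_nonneg _)
      (norm_nonneg _) (norm_nonneg _) (norm_nonneg _) (norm_nonneg _) f2 g3 f5 g4 hd1
      (by linarith) (by linarith) hu hv (by linarith)
  · rw [mul_comm (CE ^ 2)]
    exact prod_bound (I3 2) (A3 1) (norm_nonneg _) (norm_nonneg _) (norm_nonneg _)
      (norm_nonneg _) (norm_nonneg _) (norm_nonneg _) (norm_nonneg _) g2 f3 g5 f4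
      hd2 (by linarith) (by linarith) hu hv (by linarith)

end Pool.Agent.Helper58.RZ
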