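import Pool.Agent.Helper56.RZ.GoalsA

/-!
Packet RZ-L2 (project RZ, MP_f32c9c_an).
-/

set_option autoImplicit false

namespace Pool.Agent.Helper58.RZ

open _root_.Pool.Agent.Helper56.RZ

theorem mul_ap {n : ℕ} (A B : End n) (x : E n) : (A * B) x = A (B x) := rfl

/-- the trace as a bounded functional -/
theorem trace_bound (N : ℕ) : ∃ C : ℝ, 0 ≤ C ∧ ∀ X : End N,
    |LinearMap.trace ℝ (E N) ((X : End N) : E N →ₗ[ℝ] E N)| ≤ C * ‖X‖ := by
  let f : End N →ₗ[ℝ] ℝ :=
    (LinearMap.trace ℝ (E N)).comp (ContinuousLinearMap.coeLM ℝ)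
  let g : End N →L[ℝ] ℝ := LinearMap.toContinuousLinearMap f
  refine ⟨‖g‖, norm_nonneg g, fun X => ?_⟩
  have h := g.le_opNorm X
  rw [Real.norm_eq_abs] at h
  exact h

theorem norm_conj {N K : ℕ} (v : E K →L[ℝ] E N) (X : End K) (u : E N →L[ℝ] E K) {r : ℝ}
    (hr : 0 ≤ r) (hv : ‖v‖ ≤ r) (hu : ‖u‖ ≤ r) : ‖v ∘L X ∘L u‖ ≤ r ^ 2 * ‖X‖ := by
  have h1 : ‖v ∘L X ∘L u‖ ≤ ‖v‖ * ‖X ∘L u‖ := ContinuousLinearMap.opNorm_comp_le _ _
  have h2 : ‖X ∘L u‖ ≤ ‖X‖ * ‖u‖ := ContinuousLinearMap.opNorm_comp_le _ _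
  have h3 : ‖v‖ * ‖X ∘L u‖ ≤ r * (‖X‖ * r) := by
    apply mul_le_mul hv (h2.trans (mul_le_mul_of_nonneg_left hu (norm_nonneg _)))
      (norm_nonneg _) hr
  calc ‖v ∘L X ∘L u‖ ≤ r * (‖X‖ * r) := h1.trans h3
    _ = r ^ 2 * ‖X‖ := by ring

theorem l2 : StmtL1 → StmtL2 := by
  intro hL1 N K R
  set r : ℝ := max R 1 with hr
  have r1 : 1 ≤ r := le_max_right _ _
  have rR : R ≤ r := le_max_left _ _
  have r0 : 0 ≤ r := by linarith
  obtain ⟨c0, hc0, H⟩ := hL1 N (r ^ 3)
  obtain ⟨C, hC, hCt⟩ := trace_bound N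
  refine ⟨r ^ 3 * (2 * r ^ 5 + c0 * (r ^ 2 + 1)) + C * c0 * r ^ 2 + 1, ?_, ?_⟩
  · have : 0 ≤ c0 := by linarith
    have h2 : 0 ≤ r ^ 3 * (2 * r ^ 5 + c0 * (r ^ 2 + 1)) := by positivity
    have h3 : 0 ≤ C * c0 * r ^ 2 := by positivity
    linarith
  intro U U' P P' D D' Γ Γ' u u' v v' p M t η ht ht1 hη hη1 hPP hPs hUU hPP' hPs' hUU' hp
    hU hU' hPn hPn' hpn hu hu' hv hv' hM hD hD' vu vu' Uu Uu' uvU uvU' DU UD DU' UD' DD DD'
    ha hb hT hS hTij hSij G1 G2 G3 G1' G2' G3' g1 g2 g3 g1' g2' g3'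
  have c00 : 0 ≤ c0 := by linarith
  -- pointwise relations
  have UP : ∀ i, U * P i = P i := by
    intro i
    rw [← hPs, add_mul, add_mul, hPP, hPP, hPP]
    fin_cases i <;> simp
  have PU : ∀ i, P i * U = P i := by
    intro i
    rw [← hPs, mul_add, mul_add, hPP, hPP, hPP]
    fin_cases i <;> simp
  have UP' : ∀ i, U' * P' i = P' i := by
    intro i
    rw [← hPs', add_mul, add_mul, hPP', hPP', hPP']
    fin_cases i <;> simp
  have PU' : ∀ i, P' i * U' = P' i := by
    intro i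
    rw [← hPs', mul_add, mul_add, hPP', hPP', hPP']
    fin_cases i <;> simp
  have key : ∀ Y : End K, U * Y = Y → ∀ x, u (v (Y x)) = Y x := by
    intro Y hY x
    have h1 : U (Y x) = Y x := by
      have := congrArg (fun Z : End K => Z x) hY
      simpa using this
    have h2 := congrArg (fun Z : End K => Z (Y x)) uvU
    simp only [ContinuousLinearMap.comp_apply] at h2
    rwa [h1] at h2
  have key' : ∀ Y : End K, U' * Y = Y → ∀ x, u' (v' (Y x)) = Y x := by
    intro Y hY x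
    have h1 : U' (Y x) = Y x := by
      have := congrArg (fun Z : End K => Z x) hY
      simpa using this
    have h2 := congrArg (fun Z : End K => Z (Y x)) uvU'
    simp only [ContinuousLinearMap.comp_apply] at h2
    rwa [h1] at h2
  have kP := fun i => key (P i) (UP i)
  have kP' := fun i => key' (P' i) (UP' i)
  have kD := key' D UD
  have kD' := key D' UD'
  have kG := key Γ G3
  have kG' := key' Γ' G3'
  have ap : ∀ {A B : End K}, A = B → ∀ x, A x = B x := by
    intro A B h x; rw [h]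
  have vu_ : ∀ x, v (u x) = x := by
    intro x
    have := congrArg (fun Z : End N => Z x) vu
    simpa using this
  have vu'_ : ∀ x, v' (u' x) = x := by
    intro x
    have := congrArg (fun Z : End N => Z x) vu'
    simpa using this
  have Uu_ : ∀ x, U (u x) = u x := by
    intro x
    have := congrArg (fun Z : E N →L[ℝ] E K => Z x) Uu
    simpa using this
  have Uu'_ : ∀ x, U' (u' x) = u' x := by
    intro x
    have := congrArg (fun Z : E N →L[ℝ] E K => Z x) Uu'
    simpa using this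
  -- data of L1
  set a : Fin 3 → End N := fun i => v ∘L P i ∘L u with hadef
  set b : Fin 3 → End N := fun i => v' ∘L P' i ∘L u' with hbdef
  set T : End N := v' ∘L D ∘L u with hTdef
  set S : End N := v ∘L D' ∘L u' with hSdef
  set G : End N := v ∘L Γ ∘L u with hGdef
  set G' : End N := v' ∘L Γ' ∘L u' with hGdef'
  have hPa : Proj3 a := by
    constructor
    · intro i j
      ext1 x
      have h := ap (hPP i j) (u x)
      simp only [hadef, mul_ap, ContinuousLinearMap.comp_apply, kP] at h ⊢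
      rw [h]
      split_ifs <;> simp
    · ext1 x
      have h := ap hPs (u x)
      simp only [add_apply] at h
      simp only [hadef, add_apply, ContinuousLinearMap.comp_apply]
      rw [← map_add, ← map_add, h, Uu_, vu_]
      rfl
  have hPb : Proj3 b := by
    constructor
    · intro i j
      ext1 x
      have h := ap (hPP' i j) (u' x)
      simp only [hbdef, mul_ap, ContinuousLinearMap.comp_apply, kP'] at h ⊢
      rw [h]
      split_ifs <;> simp
    · ext1 x
      have h := ap hPs' (u' x)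
      simp only [add_apply] at h
      simp only [hbdef, add_apply, ContinuousLinearMap.comp_apply]
      rw [← map_add, ← map_add, h, Uu'_, vu'_]
      rfl
  have hTS : T * S = 1 := by
    ext1 x
    have h := ap DD' (u' x)
    simp only [mul_ap] at h
    simp only [hTdef, hSdef, mul_ap, ContinuousLinearMap.comp_apply, kD',
      h, Uu'_, vu'_]
    rfl
  have hST : S * T = 1 := by
    ext1 x
    have h := ap DD (u x)
    simp only [mul_ap] at h
    simp only [hTdef, hSdef, mul_ap, ContinuousLinearMap.comp_apply, kD,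
      h, Uu_, vu_]
    rfl
  have hη' : η ≤ r ^ 2 * η := by nlinarith [one_le_pow₀ r1 (n := 2)]
  have hb2 : ∀ i j, b i * T * a j = v' ∘L (P' i * D * P j) ∘L u := by
    intro i j
    ext1 x
    simp only [hadef, hbdef, hTdef, mul_ap,
      ContinuousLinearMap.comp_apply, kD, kP, kP']
  have hs2 : ∀ i j, a i * S * b j = v ∘L (P i * D' * P' j) ∘L u' := by
    intro i j
    ext1 x
    simp only [hadef, hbdef, hSdef, mul_ap,
      ContinuousLinearMap.comp_apply, kD', kP, kP']
  have uR : ‖u‖ ≤ r := hu.trans rR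
  have uR' : ‖u'‖ ≤ r := hu'.trans rR
  have vR : ‖v‖ ≤ r := hv.trans rR
  have vR' : ‖v'‖ ≤ r := hv'.trans rR
  have hr2 : (1 : ℝ) ≤ r ^ 2 := one_le_pow₀ r1
  have hr3 : r ^ 2 ≤ r ^ 3 := pow_le_pow_right₀ r1 (by norm_num)
  have hr3' : r ≤ r ^ 3 := by
    have := pow_le_pow_right₀ r1 (show 1 ≤ 3 by norm_num)
    simpa using this
  have ηt : η * t ≤ r ^ 2 * η * t := mul_le_mul_of_nonneg_right hη' ht.le
  have mk : ∀ {X : End K} {w : E K →L[ℝ] E N} {y : E N →L[ℝ] E K} {s : ℝ}, ‖w‖ ≤ r → ‖y‖ ≤ r →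
      ‖X‖ ≤ s → ‖w ∘L X ∘L y‖ ≤ r ^ 2 * s := by
    intro X w y s h1 h2 h3
    exact (norm_conj w X y r0 h1 h2).trans (mul_le_mul_of_nonneg_left h3 (by positivity))
  have main := H a b p T S M G G' t (r ^ 2 * η) ht ht1 (by positivity)
    (by nlinarith) hPa hPb hp (fun i => (hpn i).trans (rR.trans hr3')) (hM.trans (rR.trans hr3'))
    hTS hST (fun i => (ha i).trans hη') (fun i => (hb i).trans hη') (hT.trans hη') (hS.trans hη')
    (fun i j hij => by rw [hb2]; exact (hTij i j hij).trans ηt)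
    (fun i j hij => by rw [hs2]; exact (hSij i j hij).trans ηt)
    (by
      ext1 x
      have h := ap G1 (u x)
      simp only [mul_ap] at h
      simp only [hadef, hGdef, mul_ap, ContinuousLinearMap.comp_apply, kP,
        h])
    (by
      ext1 x
      have h := ap G2 (u x)
      simp only [mul_ap] at h
      simp only [hadef, hGdef, mul_ap, ContinuousLinearMap.comp_apply, kG,
        h])
    (by
      ext1 x
      have h := ap G1' (u' x)
      simp only [mul_ap] at h
      simp only [hbdef, hGdef', mul_ap, ContinuousLinearMap.comp_apply,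
        kP', h])
    (by
      ext1 x
      have h := ap G2' (u' x)
      simp only [mul_ap] at h
      simp only [hbdef, hGdef', mul_ap, ContinuousLinearMap.comp_apply,
        kG', h])
    (by
      have : a 0 * G = v ∘L (P 0 * Γ) ∘L u := by
        ext1 x
        simp only [hadef, hGdef, mul_ap, ContinuousLinearMap.comp_apply,
          kG]
      rw [this, mul_assoc]
      exact mk vR uR g1)
    (by
      have : b 2 * T * G = v' ∘L (P' 2 * D * Γ) ∘L u := by
        ext1 x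
        simp only [hbdef, hGdef, hTdef, mul_ap,
          ContinuousLinearMap.comp_apply, kG, kD]
      rw [this, mul_assoc (r ^ 2) η t]
      exact mk vR' uR g2)
    (by
      have : G - a 1 = v ∘L (Γ - P 1) ∘L u := by
        ext1 x
        simp [hadef, hGdef]
      rw [this]
      refine (mk vR uR g3).trans ?_
      have : r ^ 2 * (R * t) ≤ r ^ 2 * (r * t) := by gcongr
      calc r ^ 2 * (R * t) ≤ r ^ 2 * (r * t) := this
        _ = r ^ 3 * t := by ring)
    (by
      have : b 0 * G' = v' ∘L (P' 0 * Γ') ∘L u' := by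
        ext1 x
        simp only [hbdef, hGdef', mul_ap, ContinuousLinearMap.comp_apply,
          kG']
      rw [this, mul_assoc]
      exact mk vR' uR' g1')
    (by
      have : a 2 * S * G' = v ∘L (P 2 * D' * Γ') ∘L u' := by
        ext1 x
        simp only [hadef, hGdef', hSdef, mul_ap,
          ContinuousLinearMap.comp_apply, kG', kD']
      rw [this, mul_assoc (r ^ 2) η t]
      exact mk vR uR' g2')
    (by
      have : G' - b 1 = v' ∘L (Γ' - P' 1) ∘L u' := by
        ext1 x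
        simp [hbdef, hGdef']
      rw [this]
      refine (mk vR' uR' g3').trans ?_
      have : r ^ 2 * (R * t) ≤ r ^ 2 * (r * t) := by gcongr
      calc r ^ 2 * (R * t) ≤ r ^ 2 * (r * t) := this
        _ = r ^ 3 * t := by ring)
  set Z : End K := P 1 * D' * Γ' * P' 1 * D * Γ - P 1 with hZ
  set W : End N := p 1 * M * p 0 * M * p 1 - p 1 * M * p 2 * M * p 1 with hW
  set Zh : End N := v ∘L Z ∘L u with hZh
  have eZh : a 1 * S * G' * b 1 * T * G - a 1 = Zh := by
    ext1 x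
    simp only [hZh, hZ, hadef, hbdef, hGdef, hGdef', hSdef, hTdef, mul_ap,
      ContinuousLinearMap.comp_apply, sub_apply, map_sub, kG, kD, kP', kG', kD']
  rw [eZh] at main
  have UZ : U * Z = Z := by
    rw [hZ, mul_sub]
    simp only [← mul_assoc]
    rw [UP]
  have ZU : Z * U = Z := by
    have hG : Γ * U = Γ := by
      rw [← G1, mul_assoc, PU]
    rw [hZ, sub_mul, PU]
    rw [mul_assoc (P 1 * D' * Γ' * P' 1 * D) Γ U, hG]
  have kZ := key Z UZ
  have eZ : Z = u ∘L Zh ∘L v ∘L U := by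
    ext1 x
    have h1 := ap uvU x
    have h2 := ap ZU x
    simp only [mul_ap, ContinuousLinearMap.comp_apply] at h1 h2
    simp only [hZh, ContinuousLinearMap.comp_apply, h1, kZ, h2]
  have nW : ‖W‖ ≤ 2 * r ^ 5 := by
    have e : ∀ k : Fin 3, ‖p 1 * M * p k * M * p 1‖ ≤ r ^ 5 := by
      intro k
      have q1 : ∀ i, ‖p i‖ ≤ r := fun i => (hpn i).trans rR
      have q2 : ‖M‖ ≤ r := hM.trans rR
      calc ‖p 1 * M * p k * M * p 1‖ ≤ ‖p 1‖ * ‖M‖ * ‖p k‖ * ‖M‖ * ‖p 1‖ := by
            refine (norm_mul_le _ _).trans ?_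
            gcongr
            refine (norm_mul_le _ _).trans ?_
            gcongr
            refine (norm_mul_le _ _).trans ?_
            gcongr
            exact norm_mul_le _ _
        _ ≤ r * r * r * r * r := by
            gcongr <;> first | exact q1 _ | exact q2
        _ = r ^ 5 := by ring
    calc ‖W‖ ≤ ‖p 1 * M * p 0 * M * p 1‖ + ‖p 1 * M * p 2 * M * p 1‖ := norm_sub_le _ _
      _ ≤ 2 * r ^ 5 := by linarith [e 0, e 2]
  have t2 : 0 ≤ t ^ 2 := by positivity
  have nZh : ‖Zh‖ ≤ (2 * r ^ 5 + c0 * (r ^ 2 + 1)) * t ^ 2 := by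
    have h1 : ‖Zh‖ ≤ ‖Zh - (t ^ 2) • W‖ + ‖(t ^ 2) • W‖ := by
      have := norm_add_le (Zh - (t ^ 2) • W) ((t ^ 2) • W)
      simpa using this
    have h2 : ‖(t ^ 2) • W‖ ≤ t ^ 2 * (2 * r ^ 5) := by
      rw [norm_smul, Real.norm_eq_abs, abs_of_nonneg t2]
      gcongr
    have h3 : c0 * (r ^ 2 * η + t) * t ^ 2 ≤ c0 * (r ^ 2 + 1) * t ^ 2 := by
      gcongr
      nlinarith
    nlinarith
  refine ⟨?_, ?_⟩
  · have h1 : ‖Z‖ ≤ r ^ 3 * ‖Zh‖ := by
      have h0 : ‖Z‖ ≤ ‖u‖ * (‖Zh‖ * (‖v‖ * ‖U‖)) := by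
        rw [eZ]
        refine (ContinuousLinearMap.opNorm_comp_le _ _).trans ?_
        gcongr
        refine (ContinuousLinearMap.opNorm_comp_le _ _).trans ?_
        gcongr
        exact ContinuousLinearMap.opNorm_comp_le _ _
      calc ‖Z‖ ≤ ‖u‖ * (‖Zh‖ * (‖v‖ * ‖U‖)) := h0
        _ ≤ r * (‖Zh‖ * (r * r)) := by
            gcongr
            exact hU.trans rR
        _ = r ^ 3 * ‖Zh‖ := by ring
    have h2 : r ^ 3 * ‖Zh‖ ≤ r ^ 3 * ((2 * r ^ 5 + c0 * (r ^ 2 + 1)) * t ^ 2) := by gcongr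
    have h3 : 0 ≤ (C * c0 * r ^ 2 + 1) * t ^ 2 := by positivity
    nlinarith
  · have htr : LinearMap.trace ℝ (E K) ((Z : End K) : E K →ₗ[ℝ] E K) =
        LinearMap.trace ℝ (E N) ((Zh : End N) : E N →ₗ[ℝ] E N) := by
      have e1 : ((Z : End K) : E K →ₗ[ℝ] E K) =
          ((u ∘L Zh : E N →L[ℝ] E K) : E N →ₗ[ℝ] E K) ∘ₗ
            ((v ∘L U : E K →L[ℝ] E N) : E K →ₗ[ℝ] E N) := by
        conv_lhs => rw [eZ]
        rfl
      have e2 : ((v ∘L U : E K →L[ℝ] E N) : E K →ₗ[ℝ] E N) ∘ₗ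
          ((u ∘L Zh : E N →L[ℝ] E K) : E N →ₗ[ℝ] E K) =
          ((Zh : End N) : E N →ₗ[ℝ] E N) := by
        apply LinearMap.ext
        intro x
        change v (U (u (Zh x))) = Zh x
        rw [Uu_, vu_]
      rw [e1, ← LinearMap.trace_comp_comm', e2]
    rw [htr]
    have hWt : LinearMap.trace ℝ (E N) ((p 1 * M * p 0 * M * p 1 : End N) : E N →ₗ[ℝ] E N)
        - LinearMap.trace ℝ (E N) ((p 1 * M * p 2 * M * p 1 : End N) : E N →ₗ[ℝ] E N) =
        LinearMap.trace ℝ (E N) ((W : End N) : E N →ₗ[ℝ] E N) := by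
      rw [hW, ← map_sub]
      rfl
    rw [hWt]
    have h1 := hCt (Zh - (t ^ 2) • W)
    have h2 : LinearMap.trace ℝ (E N) (((Zh - (t ^ 2) • W : End N)) : E N →ₗ[ℝ] E N) =
        LinearMap.trace ℝ (E N) ((Zh : End N) : E N →ₗ[ℝ] E N)
          - t ^ 2 * LinearMap.trace ℝ (E N) ((W : End N) : E N →ₗ[ℝ] E N) := by
      have : (((Zh - (t ^ 2) • W : End N)) : E N →ₗ[ℝ] E N) =
          ((Zh : End N) : E N →ₗ[ℝ] E N) - (t ^ 2) • ((W : End N) : E N →ₗ[ℝ] E N) := rfl
      rw [this, map_sub, map_smul, smul_eq_mul]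
    rw [h2] at h1
    have h3 : C * ‖Zh - (t ^ 2) • W‖ ≤ C * (c0 * (r ^ 2 * η + t) * t ^ 2) := by gcongr
    have h4 : C * (c0 * (r ^ 2 * η + t) * t ^ 2) ≤ C * (c0 * (r ^ 2 * (η + t)) * t ^ 2) := by
      gcongr
      nlinarith
    have h5 : 0 ≤ (r ^ 3 * (2 * r ^ 5 + c0 * (r ^ 2 + 1)) + 1) * (η + t) * t ^ 2 := by positivity
    nlinarith

end Pool.Agent.Helper58.RZ
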